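import Pool.Agent.X61.HX.Sum

/-! Triples of height at most `N` with `rad(abc) ≤ Q z ^ ω(abc)`. -/

set_option autoImplicit false

namespace Pool.Agent.X61.HX

open Finset Pool.Agent.X4.HC

theorem card_le' {Q z : ℝ} (hQ : 0 < Q) (hz : 0 < z) (N : ℕ)
    (S : Finset (ℕ × ℕ)) (hS : ∀ t ∈ S, 0 < t.1 ∧ 0 < t.2 ∧ Nat.Coprime t.1 t.2 ∧
      t.1 + t.2 ≤ N ∧ 1 ≤ Q * w z (t.1 * t.2 * (t.1 + t.2))) :
    (S.card : ℝ) ≤ 3 * Q ^ (2 / 3 : ℝ) * (∑ m ∈ Icc 1 N, w z m) ^ 2 := by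
  set W : ℝ := ∑ m ∈ Icc 1 N, w z m with hW
  set y : ℝ := Q ^ (2 / 3 : ℝ) with hy
  have hy0 : 0 < y := by positivity
  have hy3 : y ^ 3 = Q ^ 2 := by
    rw [hy, ← Real.rpow_natCast, ← Real.rpow_mul hQ.le]
    norm_num
  -- pointwise
  have key : ∀ t ∈ S, (1 : ℝ) ≤ y * (w z t.1 * w z t.2) + y * (w z t.1 * w z (t.1 + t.2)) +
      y * (w z t.2 * w z (t.1 + t.2)) := by
    intro t ht
    obtain ⟨h1, h2, h3, h4, h10⟩ := hS t ht
    have hc : Nat.Coprime (t.1 * t.2) (t.1 + t.2) := by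
      apply Nat.Coprime.mul_left
      · rw [Nat.coprime_self_add_right]
        exact h3
      · rw [Nat.coprime_add_self_right]
        exact h3.symm
    have h7 : w z (t.1 * t.2 * (t.1 + t.2)) = w z t.1 * w z t.2 * w z (t.1 + t.2) := by
      rw [w_mul z hc, w_mul z h3]
    have hw1 := w_pos hz t.1
    have hw2 := w_pos hz t.2
    have hw3 := w_pos hz (t.1 + t.2)
    apply one_le_sum hy0.le (by positivity) (by positivity) (by positivity)
    rw [h7] at h10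
    have h9 : y ^ 3 * (w z t.1 * w z t.2 * (w z t.1 * w z (t.1 + t.2)) *
        (w z t.2 * w z (t.1 + t.2))) =
        (Q * (w z t.1 * w z t.2 * w z (t.1 + t.2))) ^ 2 := by
      rw [hy3]
      ring
    rw [h9]
    nlinarith
  have hinj : ∀ (f : ℕ × ℕ → ℕ × ℕ), (∀ t ∈ S, f t ∈ Icc 1 N ×ˢ Icc 1 N) →
      (∀ s ∈ S, ∀ t ∈ S, f s = f t → s = t) →
      ∑ t ∈ S, y * (w z (f t).1 * w z (f t).2) ≤ y * W ^ 2 := by
    intro f hf1 hf2
    rw [← Finset.mul_sum]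
    refine mul_le_mul_of_nonneg_left ?_ hy0.le
    rw [hW, sq, Finset.sum_mul_sum, ← Finset.sum_product']
    have hinj' : Set.InjOn f S := fun s hs t ht h => hf2 s hs t ht h
    rw [← Finset.sum_image (f := fun p : ℕ × ℕ => w z p.1 * w z p.2) hinj']
    refine Finset.sum_le_sum_of_subset_of_nonneg ?_ ?_
    · intro p hp
      rw [Finset.mem_image] at hp
      obtain ⟨t, ht, rfl⟩ := hp
      exact hf1 t ht
    · intro p _ _
      have := w_pos hz p.1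
      have := w_pos hz p.2
      positivity
  have h1 := hinj (fun t => (t.1, t.2)) (fun t ht => by
    obtain ⟨h1, h2, h3, h4, -⟩ := hS t ht
    simp only [mem_product, mem_Icc]
    omega) (fun s _ t _ h => h)
  have h2 := hinj (fun t => (t.1, t.1 + t.2)) (fun t ht => by
    obtain ⟨h1, h2, h3, h4, -⟩ := hS t ht
    simp only [mem_product, mem_Icc]
    omega) (fun s _ t _ h => by
      rw [Prod.mk.injEq] at h
      ext
      · exact h.1
      · omega)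
  have h3 := hinj (fun t => (t.2, t.1 + t.2)) (fun t ht => by
    obtain ⟨h1, h2, h3, h4, -⟩ := hS t ht
    simp only [mem_product, mem_Icc]
    omega) (fun s _ t _ h => by
      rw [Prod.mk.injEq] at h
      ext
      · omega
      · exact h.1)
  calc (S.card : ℝ) = ∑ t ∈ S, (1 : ℝ) := by simp
    _ ≤ ∑ t ∈ S, (y * (w z t.1 * w z t.2) + y * (w z t.1 * w z (t.1 + t.2)) +
      y * (w z t.2 * w z (t.1 + t.2))) := Finset.sum_le_sum key
    _ = ∑ t ∈ S, y * (w z t.1 * w z t.2) + ∑ t ∈ S, y * (w z t.1 * w z (t.1 + t.2)) +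
      ∑ t ∈ S, y * (w z t.2 * w z (t.1 + t.2)) := by
        rw [Finset.sum_add_distrib, Finset.sum_add_distrib]
    _ ≤ y * W ^ 2 + y * W ^ 2 + y * W ^ 2 := add_le_add (add_le_add h1 h2) h3
    _ = _ := by ring

/-- **Triples of bounded height with small weighted radical.** -/
theorem height_count {δ : ℝ} (hδ : 0 < δ) : ∃ C : ℝ, 0 < C ∧
    ∀ (Q : ℝ) (N : ℕ), 0 < Q → 1 ≤ N → ∀ S : Finset (ℕ × ℕ),
      (∀ t ∈ S, 0 < t.1 ∧ 0 < t.2 ∧ Nat.Coprime t.1 t.2 ∧ t.1 + t.2 ≤ N ∧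
        (rad (t.1 * t.2 * (t.1 + t.2)) : ℝ) ≤
          Q * (3 * Real.log N + 3) ^ (t.1 * t.2 * (t.1 + t.2)).primeFactors.card) →
      (S.card : ℝ) ≤ C * (Q ^ (2 / 3 : ℝ) * (N : ℝ) ^ δ) := by
  obtain ⟨C, hC, h⟩ := sum_small (δ := δ / 2) (B := 3) (by positivity) (by norm_num)
  refine ⟨3 * C ^ 2, by positivity, fun Q N hQ hN S hS => ?_⟩
  have hN1 : (1 : ℝ) ≤ N := by exact_mod_cast hN
  have hN0 : (0 : ℝ) < N := by linarith
  have hl : 0 ≤ Real.log N := Real.log_nonneg hN1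
  have hz : 0 < 3 * Real.log N + 3 := by linarith
  have h1 := card_le' hQ hz N S (fun t ht => by
    obtain ⟨h1, h2, h3, h4, h5⟩ := hS t ht
    refine ⟨h1, h2, h3, h4, ?_⟩
    have hr : (0 : ℝ) < rad (t.1 * t.2 * (t.1 + t.2)) := by exact_mod_cast rad_pos _
    unfold w
    rw [← mul_div_assoc, le_div_iff₀ hr, one_mul]
    exact h5)
  have h2 := h (3 * Real.log N + 3) N hN hz.le le_rfl
  have hW0 : 0 ≤ ∑ m ∈ Icc 1 N, w (3 * Real.log N + 3) m :=
    Finset.sum_nonneg fun m _ => (w_pos hz m).le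
  calc (S.card : ℝ) ≤ 3 * Q ^ (2 / 3 : ℝ) * (∑ m ∈ Icc 1 N, w (3 * Real.log N + 3) m) ^ 2 := h1
    _ ≤ 3 * Q ^ (2 / 3 : ℝ) * (C * (N : ℝ) ^ (δ / 2)) ^ 2 := by
        refine mul_le_mul_of_nonneg_left (pow_le_pow_left₀ hW0 h2 2) (by positivity)
    _ = 3 * C ^ 2 * (Q ^ (2 / 3 : ℝ) * ((N : ℝ) ^ (δ / 2) * (N : ℝ) ^ (δ / 2))) := by ring
    _ = _ := by
        rw [← Real.rpow_add hN0]
        congr 4
        ring

end Pool.Agent.X61.HX
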