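import Pool.Agent.X4.HC.Count

/-! Sums of `z ^ ω(m) / rad(m)` over `m ≤ N` with `z` of the order of `log N`, and the number of
abc triples of height at most `N` with small weighted radical. -/

set_option autoImplicit false

namespace Pool.Agent.X61.HX

open Finset Pool.Agent.X4.HC

/-- the Euler factor -/
theorem tsum_wt' {z δ : ℝ} (hz : 0 ≤ z) (hδ : 0 < δ) {p : ℕ} (hp : p.Prime) :
    ∑' n : ℕ, wt z δ (p ^ n) ≤ 1 + z * ((1 - (2 : ℝ) ^ (-δ))⁻¹ * (p : ℝ) ^ (-(1 + δ))) := by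
  have hp0 : (0 : ℝ) < p := by exact_mod_cast hp.pos
  have hp2 : (2 : ℝ) ≤ p := by exact_mod_cast hp.two_le
  obtain ⟨r, hr⟩ : ∃ r : ℝ, r = (p : ℝ) ^ (-δ) := ⟨_, rfl⟩
  have hr0 : 0 < r := by rw [hr]; positivity
  have hr2 : r ≤ (2 : ℝ) ^ (-δ) := by
    rw [hr]
    exact Real.rpow_le_rpow_of_nonpos (by norm_num) hp2 (by linarith)
  have h21 : (2 : ℝ) ^ (-δ) < 1 := Real.rpow_lt_one_of_one_lt_of_neg (by norm_num) (by linarith)
  have hr1 : r < 1 := hr2.trans_lt h21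
  have hf : ∀ n : ℕ, wt z δ (p ^ (n + 1)) = z / p * r * r ^ n := by
    intro n
    rw [wt_prime_pow z δ hp, ← hr, pow_succ]
    ring
  have hg : HasSum (fun n : ℕ => wt z δ (p ^ (n + 1))) (z / p * r * (1 - r)⁻¹) := by
    rw [show (fun n : ℕ => wt z δ (p ^ (n + 1))) = fun n : ℕ => z / p * r * r ^ n from
      funext hf]
    exact (hasSum_geometric_of_lt_one hr0.le hr1).mul_left _
  have hg2 : HasSum (fun n : ℕ => wt z δ (p ^ n)) (z / p * r * (1 - r)⁻¹ + 1) := by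
    have := (hasSum_nat_add_iff (f := fun n : ℕ => wt z δ (p ^ n)) 1).1 hg
    rw [Finset.sum_range_one, pow_zero, wt_one] at this
    exact this
  rw [hg2.tsum_eq]
  have h3 : (p : ℝ) ^ (-(1 + δ)) = r / p := by
    rw [hr, show -(1 + δ) = -δ - 1 by ring, Real.rpow_sub hp0, Real.rpow_one]
  rw [h3]
  have h4 : (1 - r)⁻¹ ≤ (1 - (2 : ℝ) ^ (-δ))⁻¹ := by
    apply inv_anti₀
    · linarith
    · linarith
  have h5 : z / p * r * (1 - r)⁻¹ = z * ((1 - r)⁻¹ * (r / p)) := by ring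
  rw [h5, add_comm]
  have h6 := mul_le_mul_of_nonneg_left
    (mul_le_mul_of_nonneg_right h4 (show 0 ≤ r / p by positivity)) hz
  linarith

/-- `∑_{m ≤ M} z ^ ω(m) / rad(m) ≤ M ^ δ (1 + C z) ^ k e ^ (ε z)` -/
theorem sum_wt' {δ ε : ℝ} (hδ : 0 < δ) (hε : 0 < ε) : ∃ (C : ℝ) (k : ℕ), 0 < C ∧
    ∀ (z : ℝ) (M : ℕ), 0 ≤ z →
      ∑ m ∈ Icc 1 M, z ^ m.primeFactors.card / (rad m : ℝ) ≤
        (M : ℝ) ^ δ * ((1 + C * z) ^ k * Real.exp (ε * z)) := by
  have hsum : Summable (fun n : ℕ => (n : ℝ) ^ (-(1 + δ))) :=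
    Real.summable_nat_rpow.2 (by linarith)
  have h21 : (2 : ℝ) ^ (-δ) < 1 := Real.rpow_lt_one_of_one_lt_of_neg (by norm_num) (by linarith)
  set c : ℝ := (1 - (2 : ℝ) ^ (-δ))⁻¹ with hc
  have hc0 : 0 < c := inv_pos.2 (by linarith)
  obtain ⟨s, hs⟩ := summable_iff_vanishing_norm.1 hsum (ε / c) (by positivity)
  refine ⟨c, s.card, hc0, fun z M hz => ?_⟩
  have h1 : ∀ m ∈ Icc 1 M, z ^ m.primeFactors.card / (rad m : ℝ) ≤ (M : ℝ) ^ δ * wt z δ m := by
    intro m hm
    rw [mem_Icc] at hm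
    have hm0 : (0 : ℝ) < m := by exact_mod_cast hm.1
    have hr : (0 : ℝ) < rad m := by exact_mod_cast rad_pos m
    unfold wt
    rw [if_neg (by omega)]
    have h2 : (m : ℝ) ^ δ ≤ (M : ℝ) ^ δ :=
      Real.rpow_le_rpow hm0.le (by exact_mod_cast hm.2) hδ.le
    have h3 : (0 : ℝ) < (m : ℝ) ^ δ := by positivity
    calc z ^ m.primeFactors.card / (rad m : ℝ)
        = (m : ℝ) ^ δ * (z ^ m.primeFactors.card / ((rad m : ℝ) * (m : ℝ) ^ δ)) := by
          field_simp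
      _ ≤ _ := by gcongr
  refine (Finset.sum_le_sum h1).trans ?_
  rw [← Finset.mul_sum]
  refine mul_le_mul_of_nonneg_left ?_ (by positivity)
  obtain ⟨hE1, hE2⟩ := EulerProduct.summable_and_hasSum_smoothNumbers_prod_primesBelow_tsum
    (f := wt z δ) (wt_one z δ) (fun {m n} h => wt_mul z δ h)
    (fun {p} hp => by
      have := (tsum_wt hz hδ hp).1
      refine this.congr fun n => ?_
      rw [Real.norm_of_nonneg (wt_nonneg hz δ _)]) (M + 1)
  have h4 : ∑ m ∈ Icc 1 M, wt z δ m ≤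
      ∏ p ∈ (M + 1).primesBelow, ∑' n : ℕ, wt z δ (p ^ n) := by
    have h5 : ∀ m ∈ Icc 1 M, m ∈ (M + 1).smoothNumbers := by
      intro m hm
      rw [mem_Icc] at hm
      exact Nat.mem_smoothNumbers_of_lt (by omega) (by omega)
    have h6 : ∑ m ∈ Icc 1 M, wt z δ m =
        ∑ x ∈ (Icc 1 M).subtype (fun m => m ∈ (M + 1).smoothNumbers), wt z δ (x : ℕ) := by
      rw [Finset.sum_subtype_of_mem (f := wt z δ) h5]
    rw [h6]
    exact sum_le_hasSum _ (fun x _ => wt_nonneg hz δ _) hE2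
  refine h4.trans ?_
  rw [← Finset.prod_filter_mul_prod_filter_not _ (fun p => p ∈ s)]
  have hnn : ∀ p : ℕ, 0 ≤ ∑' n : ℕ, wt z δ (p ^ n) := fun p =>
    tsum_nonneg fun n => wt_nonneg hz δ _
  refine mul_le_mul ?_ ?_ (Finset.prod_nonneg fun p _ => hnn p) (by positivity)
  · calc ∏ p ∈ (M + 1).primesBelow with p ∈ s, ∑' n : ℕ, wt z δ (p ^ n)
        ≤ ∏ p ∈ (M + 1).primesBelow with p ∈ s, (1 + c * z) := by
          refine Finset.prod_le_prod (fun p _ => hnn p) fun p hp => ?_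
          rw [Finset.mem_filter] at hp
          have hpp := Nat.prime_of_mem_primesBelow hp.1
          refine (tsum_wt' hz hδ hpp).trans ?_
          have h7 : (p : ℝ) ^ (-(1 + δ)) ≤ 1 :=
            Real.rpow_le_one_of_one_le_of_nonpos (by exact_mod_cast hpp.one_lt.le) (by linarith)
          have h8 : z * (c * (p : ℝ) ^ (-(1 + δ))) ≤ z * (c * 1) := by gcongr
          linarith
      _ = (1 + c * z) ^ ((M + 1).primesBelow.filter fun p => p ∈ s).card := by
          rw [Finset.prod_const]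
      _ ≤ (1 + c * z) ^ s.card := by
          refine pow_le_pow_right₀ (by nlinarith) (Finset.card_le_card fun p hp => ?_)
          exact (Finset.mem_filter.1 hp).2
  · calc ∏ p ∈ (M + 1).primesBelow with p ∉ s, ∑' n : ℕ, wt z δ (p ^ n)
        ≤ ∏ p ∈ (M + 1).primesBelow with p ∉ s,
            Real.exp (z * (c * (p : ℝ) ^ (-(1 + δ)))) := by
          refine Finset.prod_le_prod (fun p _ => hnn p) fun p hp => ?_
          rw [Finset.mem_filter] at hp
          exact (tsum_wt hz hδ (Nat.prime_of_mem_primesBelow hp.1)).2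
      _ = Real.exp (z * (c * ∑ p ∈ (M + 1).primesBelow with p ∉ s, (p : ℝ) ^ (-(1 + δ)))) := by
          rw [← Real.exp_sum, Finset.mul_sum, Finset.mul_sum]
      _ ≤ Real.exp (ε * z) := by
          apply Real.exp_le_exp.2
          have h7 := hs ((M + 1).primesBelow.filter fun p => p ∉ s) (by
            rw [Finset.disjoint_left]
            intro p hp
            exact (Finset.mem_filter.1 hp).2)
          rw [Real.norm_of_nonneg (Finset.sum_nonneg fun p _ => by positivity)] at h7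
          rw [lt_div_iff₀ hc0] at h7
          nlinarith

/-- for `z ≤ B log N + B` the sum is at most `C N ^ δ` -/
theorem sum_small {δ B : ℝ} (hδ : 0 < δ) (hB : 0 < B) : ∃ C : ℝ, 0 < C ∧
    ∀ (z : ℝ) (N : ℕ), 1 ≤ N → 0 ≤ z → z ≤ B * Real.log N + B →
      ∑ m ∈ Icc 1 N, z ^ m.primeFactors.card / (rad m : ℝ) ≤ C * (N : ℝ) ^ δ := by
  obtain ⟨c, k, hc, h⟩ := sum_wt' (δ := δ / 4) (ε := δ / (4 * B)) (by positivity) (by positivity)
  set η : ℝ := δ / (4 * (k + 1)) with hη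
  have hη0 : 0 < η := by positivity
  set D : ℝ := 1 + c * B + c * B / η with hD
  have hD0 : 0 < D := by positivity
  refine ⟨D ^ k * Real.exp (δ / 4), by positivity, fun z N hN hz hzB => ?_⟩
  have hN1 : (1 : ℝ) ≤ N := by exact_mod_cast hN
  have hN0 : (0 : ℝ) < N := by linarith
  have hl : 0 ≤ Real.log N := Real.log_nonneg hN1
  refine (h z N hz).trans ?_
  have hNη : (1 : ℝ) ≤ (N : ℝ) ^ η := Real.one_le_rpow hN1 hη0.le
  have h1 : 1 + c * z ≤ D * (N : ℝ) ^ η := by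
    have h2 : Real.log N ≤ (N : ℝ) ^ η / η := Real.log_le_rpow_div hN0.le hη0
    have h3 : c * z ≤ c * (B * ((N : ℝ) ^ η / η) + B) := by
      have : z ≤ B * ((N : ℝ) ^ η / η) + B := hzB.trans (by nlinarith)
      gcongr
    have h4 : c * (B * ((N : ℝ) ^ η / η) + B) = c * B / η * (N : ℝ) ^ η + c * B := by ring
    have h5 : c * B ≤ c * B * (N : ℝ) ^ η := le_mul_of_one_le_right (by positivity) hNη
    rw [hD]
    nlinarith
  have h2 : (1 + c * z) ^ k ≤ D ^ k * (N : ℝ) ^ (δ / 4) := by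
    calc (1 + c * z) ^ k ≤ (D * (N : ℝ) ^ η) ^ k := pow_le_pow_left₀ (by positivity) h1 k
      _ = D ^ k * (N : ℝ) ^ (η * k) := by
          rw [mul_pow, ← Real.rpow_natCast ((N : ℝ) ^ η), ← Real.rpow_mul hN0.le]
      _ ≤ _ := by
          refine mul_le_mul_of_nonneg_left (Real.rpow_le_rpow_of_exponent_le hN1 ?_) (by positivity)
          rw [hη, div_mul_eq_mul_div, div_le_div_iff₀ (by positivity) (by norm_num)]
          have : (0 : ℝ) ≤ k := Nat.cast_nonneg k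
          nlinarith
  have h3 : Real.exp (δ / (4 * B) * z) ≤ Real.exp (δ / 4) * (N : ℝ) ^ (δ / 4) := by
    rw [Real.rpow_def_of_pos hN0, ← Real.exp_add]
    apply Real.exp_le_exp.2
    have h4 : δ / (4 * B) * z ≤ δ / (4 * B) * (B * Real.log N + B) := by gcongr
    have h5 : δ / (4 * B) * (B * Real.log N + B) = δ / 4 + Real.log N * (δ / 4) := by
      field_simp
      ring
    linarith
  calc (N : ℝ) ^ (δ / 4) * ((1 + c * z) ^ k * Real.exp (δ / (4 * B) * z))
      ≤ (N : ℝ) ^ (δ / 4) * ((D ^ k * (N : ℝ) ^ (δ / 4)) *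
          (Real.exp (δ / 4) * (N : ℝ) ^ (δ / 4))) := by
        gcongr
    _ = D ^ k * Real.exp (δ / 4) * ((N : ℝ) ^ (δ / 4) * (N : ℝ) ^ (δ / 4) *
          (N : ℝ) ^ (δ / 4)) := by ring
    _ = D ^ k * Real.exp (δ / 4) * (N : ℝ) ^ (δ / 4 + δ / 4 + δ / 4) := by
        rw [← Real.rpow_add hN0, ← Real.rpow_add hN0]
    _ ≤ _ := by
        refine mul_le_mul_of_nonneg_left (Real.rpow_le_rpow_of_exponent_le hN1 (by linarith))
          (by positivity)

end Pool.Agent.X61.HX
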